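import Pool.Agent.H295R2.WM6

/-!
# Growth of the weak Mertens integral forced by a multiple zero

Let `I(x) = ∫_1^x (M(u)/u)² du`.  If `ζ` has a nontrivial zero `ρ` with `Re ρ ≥ 1/2`, of multiplicity at
least `m ≥ 1`, then for some `c > 0` and ALL large `x`

* `I(x) ≥ c x^{2 Re ρ - 1} (log x)^{2m - 2}`, and
* `I(x) ≥ c (log x)^{2m - 1}` when `Re ρ = 1/2`.
-/

set_option autoImplicit false

open Filter Topology MeasureTheory

namespace Pool.Agent.Results.MP_323ce2_nt.MultipleZeroGrowth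

/-- `I(x) = ∫_1^x (M(u)/u)² du`, as in the frozen statement. -/
noncomputable def I (x : ℝ) : ℝ :=
  ∫ u in (1:ℝ)..x, ((∑ n ∈ Finset.Icc 1 ⌊u⌋₊, ((ArithmeticFunction.moebius n : ℤ) : ℝ)) / u) ^ 2

/-- the growth exponent of the logarithm: `2m - 1` on the critical line, `2m - 2` to the right of it -/
noncomputable def logExp (ρ : ℂ) (m : ℕ) : ℕ := if ρ.re = 1 / 2 then 2 * m - 1 else 2 * m - 2

theorem result (ρ : ℂ) (hρ : 1 / 2 ≤ ρ.re) (hρ1 : ρ.re < 1) (m : ℕ) (hm : 1 ≤ m)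
    (hmul : ∀ j < m, iteratedDeriv j riemannZeta ρ = 0) :
    ∃ c : ℝ, 0 < c ∧ ∀ᶠ x : ℝ in atTop, c * (x ^ (2 * ρ.re - 1) * Real.log x ^ logExp ρ m) ≤ I x := by
  have hI : I = H295R2.II := rfl
  rw [hI]
  unfold logExp
  split_ifs with h
  · obtain ⟨c, hc, L₀, h2⟩ := H295R2.partB' hρ hρ1 hm hmul
    refine ⟨c, hc, ?_⟩
    refine H295R2.ev_log (P := fun x y => c * (x ^ (2 * ρ.re - 1) * Real.log x ^ (2 * m - 1)) ≤ y) (L₀ := L₀) fun L hL => ?_
    have h3 := h2 L hL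
    rw [h]
    simpa using h3
  · obtain ⟨c, hc, L₀, h2⟩ := H295R2.partA' (by linarith) hρ1 hm hmul
    refine ⟨c, hc, ?_⟩
    refine H295R2.ev_log (P := fun x y => c * (x ^ (2 * ρ.re - 1) * Real.log x ^ (2 * m - 2)) ≤ y) (L₀ := L₀) fun L hL => ?_
    have := h2 L hL
    rwa [← Real.exp_mul, mul_comm L, Real.log_exp]

end Pool.Agent.Results.MP_323ce2_nt.MultipleZeroGrowth
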