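import Pool.Agent.H295R2.WM8

/-!
# The weak Mertens bound on a sparse set of windows

Let `M(u) = ∑_{n ≤ u} μ(n)` and `0 < δ ≤ 1`.  If for just an unbounded set of real `x` (which may be as sparse
as one likes)

`∫_{x^{1-δ}}^{x} (M(u)/u)² du ≤ C log x`,

then the Riemann Hypothesis holds, every nontrivial zero of `ζ` is simple, and
`∑_ρ 1 / |ρ ζ'(ρ)|² ≤ C / δ`.  For `δ = 1` the integral is `I(x) = ∫_1^x (M(u)/u)² du`, and the statement says
`liminf_{x → ∞} I(x) / log x ≥ ∑_ρ 1 / |ρ ζ'(ρ)|²`, with the right-hand side read as `+∞` when the Riemann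
Hypothesis fails or some zero is multiple.
-/

set_option autoImplicit false

open Filter Topology MeasureTheory

namespace Pool.Agent.Results.MP_323ce2_nt.SparseWindows

/-- `∫_{x^{1-δ}}^x (M(u)/u)² du`; for `δ = 1` this is the integral `I(x)` of the frozen statement. -/
noncomputable def windowIntegral (δ x : ℝ) : ℝ :=
  ∫ u in (x ^ (1 - δ))..x, ((∑ n ∈ Finset.Icc 1 ⌊u⌋₊, ((ArithmeticFunction.moebius n : ℤ) : ℝ)) / u) ^ 2

/-- The nontrivial zeros of the Riemann zeta function. -/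
def NT : Set ℂ := {s : ℂ | riemannZeta s = 0 ∧ 0 < s.re ∧ s.re < 1}

theorem result (δ : ℝ) (hδ : 0 < δ) (hδ1 : δ ≤ 1) (C : ℝ)
    (h : ∃ᶠ x : ℝ in atTop, windowIntegral δ x ≤ C * Real.log x) :
    (∀ ρ ∈ NT, ρ.re = 1 / 2 ∧ deriv riemannZeta ρ ≠ 0) ∧
    Summable (fun ρ : NT => 1 / ‖(ρ : ℂ) * deriv riemannZeta ρ‖ ^ 2) ∧
    ∑' ρ : NT, 1 / ‖(ρ : ℂ) * deriv riemannZeta ρ‖ ^ 2 ≤ C / δ := by
  obtain ⟨h1, h2⟩ := H295R2.weak_mertens_windows hδ hδ1 h
  have hsum : ∀ u : Finset NT, ∑ ρ ∈ u, 1 / ‖(ρ : ℂ) * deriv riemannZeta ρ‖ ^ 2 ≤ C / δ := by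
    intro u
    classical
    have h3 := h2 (u.map (Function.Embedding.subtype _)) (fun ρ hρ => by
      rw [Finset.mem_map] at hρ
      obtain ⟨ρ', -, rfl⟩ := hρ
      exact ρ'.2)
    rwa [Finset.sum_map] at h3
  exact ⟨fun ρ hρ => h1 ρ hρ, summable_of_sum_le (fun ρ => by positivity) hsum,
    Real.tsum_le_of_sum_le (fun ρ => by positivity) hsum⟩

end Pool.Agent.Results.MP_323ce2_nt.SparseWindows
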